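import Pool.Agent.R161.Bohr.Basic

/-!
Assembly of the final theorem.
-/

set_option autoImplicit false

namespace Pool.Agent.R161.Bohr

open Finset
open scoped ComplexConjugate

universe u

theorem exists_fin_family {α : Type u} [Inhabited α] (S : Finset α) {k : ℕ} (h : S.card ≤ k) :
    ∃ f : Fin k → α, ∀ a ∈ S, ∃ i, f i = a := by
  refine ⟨fun i => if hi : i.1 < S.card then (S.equivFin.symm ⟨i.1, hi⟩ : α) else default, ?_⟩
  intro a ha
  refine ⟨⟨(S.equivFin ⟨a, ha⟩).1, (S.equivFin ⟨a, ha⟩).2.trans_le h⟩, ?_⟩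
  have h1 : (S.equivFin ⟨a, ha⟩).1 < S.card := (S.equivFin ⟨a, ha⟩).2
  simp only [h1, dif_pos]
  simp

theorem root_far {z : ℂ} {n N : ℕ} (hz : ‖z‖ = 1) (hn : n ≠ 0) (hnN : n ≤ N) (h : z ^ n = 1)
    (h1 : z ≠ 1) : 1 / ((N : ℝ) + 1) ≤ ‖z - 1‖ := by
  have hk : ∀ k : ℕ, ‖1 - z ^ k‖ ≤ k * ‖z - 1‖ := by
    intro k
    induction k with
    | zero => simp
    | succ k ih =>
      have e : 1 - z ^ (k + 1) = (1 - z ^ k) + z ^ k * (1 - z) := by ring
      rw [e]
      refine (norm_add_le _ _).trans ?_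
      rw [norm_mul, norm_pow, hz, one_pow, one_mul, norm_sub_rev 1 z]
      push_cast
      linarith
  have hs : ∑ k ∈ range n, z ^ k = 0 := by
    have := geom_sum_mul z n
    rw [h, sub_self] at this
    exact (mul_eq_zero.1 this).resolve_right (sub_ne_zero.2 h1)
  have h2 : (n : ℝ) ≤ n * (n * ‖z - 1‖) := by
    have e1 : ((n : ℂ)) = ∑ k ∈ range n, (1 - z ^ k) := by
      rw [Finset.sum_sub_distrib, hs]
      simp
    calc (n : ℝ) = ‖(n : ℂ)‖ := by simp
      _ = ‖∑ k ∈ range n, (1 - z ^ k)‖ := by rw [← e1]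
      _ ≤ ∑ k ∈ range n, ‖1 - z ^ k‖ := norm_sum_le _ _
      _ ≤ ∑ k ∈ range n, n * ‖z - 1‖ := by
          refine Finset.sum_le_sum fun k hk' => (hk k).trans ?_
          have : (k : ℝ) ≤ n := by exact_mod_cast (Finset.mem_range.1 hk').le
          exact mul_le_mul_of_nonneg_right this (norm_nonneg _)
      _ = _ := by simp
  have hnpos : (0 : ℝ) < n := by exact_mod_cast Nat.pos_of_ne_zero hn
  have h3 : 1 ≤ n * ‖z - 1‖ := by
    by_contra hcon
    push Not at hcon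
    have := mul_lt_mul_of_pos_left hcon hnpos
    linarith
  have h4 : (n : ℝ) ≤ N + 1 := by
    have : (n : ℝ) ≤ N := by exact_mod_cast hnN
    linarith
  rw [div_le_iff₀ (by positivity)]
  calc (1 : ℝ) ≤ n * ‖z - 1‖ := h3
    _ ≤ (N + 1) * ‖z - 1‖ := mul_le_mul_of_nonneg_right h4 (norm_nonneg _)
    _ = _ := mul_comm _ _

theorem s_final (hext : S_ext.{u}) (hsol : S_sol.{u}) (havg : S_avg.{u}) (hwm : S_wm.{u})
    (hc42 : S_c42.{u}) (hlow : S_low.{u}) (htr : S_tr.{u}) (hch : S_ch.{u}) : S_final.{u} := by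
  intro d N hd δ hδ
  set δ0 : ℝ := min (δ / 2) 1 with hδ0
  have hδ0p : 0 < δ0 := lt_min (by linarith) one_pos
  obtain ⟨c, hc, hlow⟩ := hlow d N (by omega) δ0 hδ0p (min_le_right _ _)
  set ε : ℝ := c / (8 * (d * N + 1)) with hε
  have hεp : 0 < ε := by positivity
  obtain ⟨k0, htr⟩ := htr d N ε hεp
  set η : ℝ := min (c / (4 * (k0 + 1))) (1 / (N + 1)) with hη
  have hηp : 0 < η := lt_min (by positivity) (by positivity)
  refine ⟨k0 + N, η, hηp, ?_⟩
  intro G _ φ hidx hsum A hA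
  obtain ⟨m, hinv, hExt, hmA⟩ := hext G A δ0 (by
    have : δ0 ≤ δ / 2 := min_le_left _ _
    linarith) hδ0p
  obtain ⟨M, hM⟩ := hsol G m hinv d (by omega) φ hsum
  have hC := hc42 G m hinv (havg G m hinv hExt) (hwm G m hinv hExt) d N hd φ hidx M hM
  set f : G → ℝ := A.indicator fun _ => 1 with hf
  have hf01 : ∀ x, 0 ≤ f x ∧ f x ≤ 1 := by
    intro x
    by_cases hx : x ∈ A
    · simp [hf, hx]
    · simp [hf, hx]
  have h1 := hlow G m hinv φ M hM hC f hf01 hmA
  obtain ⟨X, hXc, hX⟩ := htr G m hinv φ M hM hC f hf01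
  -- the image subgroup
  let Φ : (Fin d → G) →+ G := ∑ j, (φ j).comp (Pi.evalAddMonoidHom (fun _ : Fin d => G) j)
  have hΦ : ∀ x, Φ x = ∑ j, φ j (x j) := by
    intro x
    simp [Φ, AddMonoidHom.finsetSum_apply]
  have hle : (φ ⟨0, by omega⟩).range ≤ Φ.range := by
    rintro _ ⟨a, rfl⟩
    refine ⟨Pi.single ⟨0, by omega⟩ a, ?_⟩
    rw [hΦ, Finset.sum_eq_single ⟨0, by omega⟩]
    · simp
    · intro j _ hj
      simp [Pi.single_eq_of_ne hj]
    · intro h
      exact absurd (mem_univ _) h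
  have hdvd : Φ.range.index ∣ (φ ⟨0, by omega⟩).range.index := AddSubgroup.index_dvd_of_le hle
  have hne : Φ.range.index ≠ 0 := fun h0 => (hidx _).1 (by rw [h0] at hdvd; exact zero_dvd_iff.1 hdvd)
  have hleN : Φ.range.index ≤ N := (Nat.le_of_dvd (Nat.pos_of_ne_zero (hidx _).1) hdvd).trans (hidx _).2
  obtain ⟨Ξ, hΞ, hΞc, hΞs⟩ := hch G Φ.range hne
  classical
  obtain ⟨χ, hχ⟩ := exists_fin_family (X ∪ Ξ) (k := k0 + N)
    ((card_union_le _ _).trans (add_le_add hXc (hΞc.trans hleN)))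
  refine ⟨χ, fun g hg => ?_⟩
  have hall : ∀ ξ ∈ X ∪ Ξ, ‖(ξ g : ℂ) - 1‖ < η := by
    intro ξ hξ
    obtain ⟨i, hi⟩ := hχ ξ hξ
    rw [← hi]
    exact hg i
  have hgr : g ∈ Φ.range := by
    by_contra hcon
    obtain ⟨ξ, hξ, hξg⟩ := hΞs g hcon
    have h2 := hall ξ (mem_union_right _ hξ)
    have h3 : (ξ g : ℂ) ^ Φ.range.index = 1 := by
      have h4 : ξ (Φ.range.index • g) = 1 := (hΞ ξ).1 hξ _ (by
        exact AddSubgroup.nsmul_index_mem _ g)
      rw [AddChar.map_nsmul_eq_pow] at h4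
      have := congrArg (fun z : Circle => (z : ℂ)) h4
      simpa using this
    have h5 := root_far (norm_char ξ g) hne hleN h3 (fun h => hξg (by ext; simpa using h))
    have h6 : η ≤ 1 / ((N : ℝ) + 1) := min_le_right _ _
    linarith
  obtain ⟨t, ht⟩ := hgr
  rw [hΦ] at ht
  have h2 := hX t η hηp.le (fun ξ hξ => by
    rw [ht]
    exact (hall ξ (mem_union_left _ hξ)).le)
  have h3 : 2 * d * N * ε ≤ c / 4 := by
    rw [hε]
    have hdN : (0 : ℝ) ≤ (d : ℝ) * N := by positivity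
    rw [mul_div_assoc', div_le_div_iff₀ (by positivity) (by norm_num)]
    nlinarith
  have h4 : (k0 : ℝ) * η ≤ c / 4 := by
    have h5 : η ≤ c / (4 * (k0 + 1)) := min_le_left _ _
    have h6 : (k0 : ℝ) * η ≤ k0 * (c / (4 * (k0 + 1))) := mul_le_mul_of_nonneg_left h5 (by positivity)
    refine h6.trans ?_
    rw [mul_div_assoc', div_le_div_iff₀ (by positivity) (by norm_num)]
    nlinarith
  have h5 : 0 < M.re (fun x => ∏ j, f (x j + t j)) := by linarith
  have h6 : ∃ x : Fin d → G, ∑ j, φ j (x j) = 0 ∧ ∏ j, f (x j + t j) ≠ 0 := by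
    by_contra hcon
    push Not at hcon
    have hb : BddR (fun x : Fin d → G => ∏ j, f (x j + t j)) :=
      BddR.prod _ fun j _ => (BddR.of_mem hf01).comp (fun x : Fin d → G => x j + t j)
    have h7 := hM.supp (fun x => ((∏ j, f (x j + t j) : ℝ) : ℂ)) hb.ofReal
      (fun x hx => by rw [hcon x hx]; simp)
    have h8 : M.re (fun x => ∏ j, f (x j + t j)) = 0 := by
      unfold St.re
      rw [h7]
      simp
    linarith
  obtain ⟨x, hx, hxp⟩ := h6
  refine ⟨fun j => x j + t j, fun j => ?_, ?_⟩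
  · have := (Finset.prod_ne_zero_iff.1 hxp) j (mem_univ j)
    by_contra hj
    exact this (by simp [hf, hj])
  · simp only [map_add, Finset.sum_add_distrib]
    rw [hx, zero_add, ht]

end Pool.Agent.R161.Bohr
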