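import Pool.Agent.R161.Bohr.Defs

/-!
Elementary facts about states, invariant means and Fourier coefficients.
-/

set_option autoImplicit false

namespace Pool.Agent.R161.Bohr

open Finset
open scoped ComplexConjugate

universe u v

/-! ### bounded functions -/

section bdd
variable {X : Type v} {Y : Type u}

theorem Bdd.const (c : ℂ) : Bdd (fun _ : X => c) := ⟨‖c‖, fun _ => le_rfl⟩

theorem Bdd.nonneg {f : X → ℂ} (h : Bdd f) : ∃ C : ℝ, 0 ≤ C ∧ ∀ x, ‖f x‖ ≤ C := by
  obtain ⟨C, hC⟩ := h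
  exact ⟨max C 0, le_max_right _ _, fun x => (hC x).trans (le_max_left _ _)⟩

theorem Bdd.add {f g : X → ℂ} (hf : Bdd f) (hg : Bdd g) : Bdd (fun x => f x + g x) := by
  obtain ⟨C, hC⟩ := hf
  obtain ⟨D, hD⟩ := hg
  exact ⟨C + D, fun x => (norm_add_le _ _).trans (add_le_add (hC x) (hD x))⟩

theorem Bdd.neg {f : X → ℂ} (hf : Bdd f) : Bdd (fun x => - f x) := by
  obtain ⟨C, hC⟩ := hf
  exact ⟨C, fun x => by rw [norm_neg]; exact hC x⟩

theorem Bdd.sub {f g : X → ℂ} (hf : Bdd f) (hg : Bdd g) : Bdd (fun x => f x - g x) := by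
  simpa [sub_eq_add_neg] using hf.add hg.neg

theorem Bdd.mul {f g : X → ℂ} (hf : Bdd f) (hg : Bdd g) : Bdd (fun x => f x * g x) := by
  obtain ⟨C, hC0, hC⟩ := hf.nonneg
  obtain ⟨D, hD⟩ := hg
  exact ⟨C * D, fun x => by
    rw [norm_mul]; exact mul_le_mul (hC x) (hD x) (norm_nonneg _) hC0⟩

theorem Bdd.cmul {f : X → ℂ} (c : ℂ) (hf : Bdd f) : Bdd (fun x => c * f x) :=
  (Bdd.const c).mul hf

theorem Bdd.conj {f : X → ℂ} (hf : Bdd f) : Bdd (fun x => conj (f x)) := by
  obtain ⟨C, hC⟩ := hf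
  exact ⟨C, fun x => by rw [RCLike.norm_conj]; exact hC x⟩

theorem Bdd.comp {f : X → ℂ} (hf : Bdd f) (g : Y → X) : Bdd (fun y => f (g y)) := by
  obtain ⟨C, hC⟩ := hf
  exact ⟨C, fun y => hC (g y)⟩

theorem Bdd.sum {ι : Type*} (s : Finset ι) {f : ι → X → ℂ} (hf : ∀ i ∈ s, Bdd (f i)) :
    Bdd (fun x => ∑ i ∈ s, f i x) := by
  classical
  induction s using Finset.induction_on with
  | empty => simpa using Bdd.const (X := X) 0
  | insert a s ha ih =>
    have h1 := (hf a (mem_insert_self a s)).add (ih fun i hi => hf i (mem_insert_of_mem hi))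
    simpa [sum_insert ha] using h1

theorem Bdd.prod {ι : Type*} (s : Finset ι) {f : ι → X → ℂ} (hf : ∀ i ∈ s, Bdd (f i)) :
    Bdd (fun x => ∏ i ∈ s, f i x) := by
  classical
  induction s using Finset.induction_on with
  | empty => simpa using Bdd.const (X := X) 1
  | insert a s ha ih =>
    have h1 := (hf a (mem_insert_self a s)).mul (ih fun i hi => hf i (mem_insert_of_mem hi))
    simpa [prod_insert ha] using h1

theorem BddR.ofReal {f : X → ℝ} (hf : BddR f) : Bdd (fun x => (f x : ℂ)) := by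
  obtain ⟨C, hC⟩ := hf
  exact ⟨C, fun x => by rw [Complex.norm_real]; exact hC x⟩

theorem Bdd.norm {f : X → ℂ} (hf : Bdd f) : BddR (fun x => ‖f x‖) := by
  obtain ⟨C, hC⟩ := hf
  exact ⟨C, fun x => by rw [abs_of_nonneg (norm_nonneg _)]; exact hC x⟩

theorem Bdd.norm_sq {f : X → ℂ} (hf : Bdd f) : BddR (fun x => ‖f x‖ ^ 2) := by
  obtain ⟨C, hC⟩ := hf
  exact ⟨C ^ 2, fun x => by
    rw [abs_of_nonneg (by positivity)]
    exact pow_le_pow_left₀ (norm_nonneg _) (hC x) 2⟩

theorem BddR.const (c : ℝ) : BddR (fun _ : X => c) := ⟨|c|, fun _ => le_rfl⟩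

theorem BddR.add {f g : X → ℝ} (hf : BddR f) (hg : BddR g) : BddR (fun x => f x + g x) := by
  obtain ⟨C, hC⟩ := hf
  obtain ⟨D, hD⟩ := hg
  exact ⟨C + D, fun x => (abs_add_le _ _).trans (add_le_add (hC x) (hD x))⟩

theorem BddR.neg {f : X → ℝ} (hf : BddR f) : BddR (fun x => - f x) := by
  obtain ⟨C, hC⟩ := hf
  exact ⟨C, fun x => by rw [abs_neg]; exact hC x⟩

theorem BddR.sub {f g : X → ℝ} (hf : BddR f) (hg : BddR g) : BddR (fun x => f x - g x) := by
  simpa [sub_eq_add_neg] using hf.add hg.neg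

theorem BddR.mul {f g : X → ℝ} (hf : BddR f) (hg : BddR g) : BddR (fun x => f x * g x) := by
  obtain ⟨C, hC⟩ := hf
  obtain ⟨D, hD⟩ := hg
  exact ⟨|C| * D, fun x => by
    rw [abs_mul]; exact mul_le_mul ((hC x).trans (le_abs_self _)) (hD x) (abs_nonneg _) (abs_nonneg _)⟩

theorem BddR.cmul {f : X → ℝ} (c : ℝ) (hf : BddR f) : BddR (fun x => c * f x) :=
  (BddR.const c).mul hf

theorem BddR.pow {f : X → ℝ} (hf : BddR f) (n : ℕ) : BddR (fun x => f x ^ n) := by
  obtain ⟨C, hC⟩ := hf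
  exact ⟨C ^ n, fun x => by rw [abs_pow]; exact pow_le_pow_left₀ (abs_nonneg _) (hC x) n⟩

theorem BddR.comp {f : X → ℝ} (hf : BddR f) (g : Y → X) : BddR (fun y => f (g y)) := by
  obtain ⟨C, hC⟩ := hf
  exact ⟨C, fun y => hC (g y)⟩

theorem BddR.of_mem {f : X → ℝ} (hf : ∀ x, 0 ≤ f x ∧ f x ≤ 1) : BddR f :=
  ⟨1, fun x => by rw [abs_of_nonneg (hf x).1]; exact (hf x).2⟩

theorem BddR.sum {ι : Type*} (s : Finset ι) {f : ι → X → ℝ} (hf : ∀ i ∈ s, BddR (f i)) :
    BddR (fun x => ∑ i ∈ s, f i x) := by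
  classical
  induction s using Finset.induction_on with
  | empty => simpa using BddR.const (X := X) 0
  | insert a s ha ih =>
    have h1 := (hf a (mem_insert_self a s)).add (ih fun i hi => hf i (mem_insert_of_mem hi))
    simpa [sum_insert ha] using h1

theorem BddR.prod {ι : Type*} (s : Finset ι) {f : ι → X → ℝ} (hf : ∀ i ∈ s, BddR (f i)) :
    BddR (fun x => ∏ i ∈ s, f i x) := by
  classical
  induction s using Finset.induction_on with
  | empty => simpa using BddR.const (X := X) 1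
  | insert a s ha ih =>
    have h1 := (hf a (mem_insert_self a s)).mul (ih fun i hi => hf i (mem_insert_of_mem hi))
    simpa [prod_insert ha] using h1

end bdd

/-! ### states -/

namespace St

variable {X : Type v} (m : St X)

theorem map_add {f g : X → ℂ} (hf : Bdd f) (hg : Bdd g) :
    m (fun x => f x + g x) = m f + m g := m.add' f g hf hg

theorem map_cmul (c : ℂ) {f : X → ℂ} (hf : Bdd f) : m (fun x => c * f x) = c * m f :=
  m.smul' c f hf

theorem map_mulc (c : ℂ) {f : X → ℂ} (hf : Bdd f) : m (fun x => f x * c) = m f * c := by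
  have h := m.smul' c f hf
  rw [mul_comm (m f) c, ← h]
  congr 1
  funext x
  ring

theorem map_one : m (fun _ => 1) = 1 := m.one'

theorem map_const (c : ℂ) : m (fun _ => c) = c := by
  have h := m.smul' c (fun _ => 1) (Bdd.const 1)
  simpa [m.one'] using h

theorem map_zero : m (fun _ => 0) = 0 := m.map_const 0

theorem map_neg {f : X → ℂ} (hf : Bdd f) : m (fun x => - f x) = - m f := by
  have h := m.smul' (-1) f hf
  simpa using h

theorem map_sub {f g : X → ℂ} (hf : Bdd f) (hg : Bdd g) :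
    m (fun x => f x - g x) = m f - m g := by
  have h := m.add' f (fun x => - g x) hf hg.neg
  rw [m.map_neg hg] at h
  simpa [sub_eq_add_neg] using h

theorem map_sum {ι : Type*} (s : Finset ι) {f : ι → X → ℂ} (hf : ∀ i ∈ s, Bdd (f i)) :
    m (fun x => ∑ i ∈ s, f i x) = ∑ i ∈ s, m (f i) := by
  classical
  induction s using Finset.induction_on with
  | empty => simpa using m.map_zero
  | insert a s ha ih =>
    have h1 := m.add' (f a) (fun x => ∑ i ∈ s, f i x) (hf a (mem_insert_self a s))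
      (Bdd.sum s fun i hi => hf i (mem_insert_of_mem hi))
    rw [ih fun i hi => hf i (mem_insert_of_mem hi)] at h1
    simpa [sum_insert ha] using h1

/-- the value on a real function is real -/
theorem ofReal {f : X → ℝ} (hf : BddR f) : m (fun x => (f x : ℂ)) = (m.re f : ℂ) := by
  apply Complex.ext
  · simp [St.re]
  · simpa using m.real' f hf

theorem re_add {f g : X → ℝ} (hf : BddR f) (hg : BddR g) :
    m.re (fun x => f x + g x) = m.re f + m.re g := by
  have h := m.add' _ _ hf.ofReal hg.ofReal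
  have h2 := congrArg Complex.re h
  simpa [St.re] using h2

theorem re_cmul (c : ℝ) {f : X → ℝ} (hf : BddR f) : m.re (fun x => c * f x) = c * m.re f := by
  have h := m.smul' (c : ℂ) _ hf.ofReal
  have h2 := congrArg Complex.re h
  simpa [St.re] using h2

theorem re_mulc (c : ℝ) {f : X → ℝ} (hf : BddR f) : m.re (fun x => f x * c) = m.re f * c := by
  rw [mul_comm (m.re f) c, ← m.re_cmul c hf]
  congr 1
  funext x
  ring

theorem re_neg {f : X → ℝ} (hf : BddR f) : m.re (fun x => - f x) = - m.re f := by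
  simpa using m.re_cmul (-1) hf

theorem re_sub {f g : X → ℝ} (hf : BddR f) (hg : BddR g) :
    m.re (fun x => f x - g x) = m.re f - m.re g := by
  have h := m.re_add hf hg.neg
  rw [m.re_neg hg] at h
  simpa [sub_eq_add_neg] using h

theorem re_const (c : ℝ) : m.re (fun _ => c) = c := by
  simp [St.re, m.map_const]

theorem re_sum {ι : Type*} (s : Finset ι) {f : ι → X → ℝ} (hf : ∀ i ∈ s, BddR (f i)) :
    m.re (fun x => ∑ i ∈ s, f i x) = ∑ i ∈ s, m.re (f i) := by
  have h := m.map_sum s (f := fun i x => (f i x : ℂ)) fun i hi => (hf i hi).ofReal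
  have h2 := congrArg Complex.re h
  simpa [St.re] using h2

theorem re_nonneg {f : X → ℝ} (hf : BddR f) (h : ∀ x, 0 ≤ f x) : 0 ≤ m.re f :=
  m.nonneg' f hf h

theorem re_mono {f g : X → ℝ} (hf : BddR f) (hg : BddR g) (h : ∀ x, f x ≤ g x) :
    m.re f ≤ m.re g := by
  have h1 := m.re_nonneg (hg.sub hf) fun x => sub_nonneg.2 (h x)
  rw [m.re_sub hg hf] at h1
  linarith

theorem re_le {f : X → ℝ} (hf : BddR f) {c : ℝ} (h : ∀ x, f x ≤ c) : m.re f ≤ c := by
  have := m.re_mono hf (BddR.const c) h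
  rwa [m.re_const] at this

theorem le_re {f : X → ℝ} (hf : BddR f) {c : ℝ} (h : ∀ x, c ≤ f x) : c ≤ m.re f := by
  have := m.re_mono (BddR.const c) hf h
  rwa [m.re_const] at this

/-- decomposition into real and imaginary parts -/
theorem eq_re_add {f : X → ℂ} (hf : Bdd f) :
    m f = (m.re fun x => (f x).re) + (m.re fun x => (f x).im) * Complex.I := by
  have hr : BddR fun x => (f x).re := by
    obtain ⟨C, hC⟩ := hf
    exact ⟨C, fun x => (Complex.abs_re_le_norm _).trans (hC x)⟩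
  have hi : BddR fun x => (f x).im := by
    obtain ⟨C, hC⟩ := hf
    exact ⟨C, fun x => (Complex.abs_im_le_norm _).trans (hC x)⟩
  rw [← m.ofReal hr, ← m.ofReal hi, mul_comm, ← m.map_cmul _ hi.ofReal,
    ← m.map_add hr.ofReal (hi.ofReal.cmul _)]
  congr 1
  funext x
  rw [mul_comm Complex.I]
  exact (Complex.re_add_im _).symm

theorem map_re {f : X → ℂ} (hf : Bdd f) : (m f).re = m.re fun x => (f x).re := by
  rw [m.eq_re_add hf]
  simp

theorem map_im {f : X → ℂ} (hf : Bdd f) : (m f).im = m.re fun x => (f x).im := by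
  rw [m.eq_re_add hf]
  simp

theorem map_conj {f : X → ℂ} (hf : Bdd f) : m (fun x => conj (f x)) = conj (m f) := by
  have hi : BddR fun x => (f x).im := by
    obtain ⟨C, hC⟩ := hf
    exact ⟨C, fun x => (Complex.abs_im_le_norm _).trans (hC x)⟩
  apply Complex.ext
  · rw [m.map_re hf.conj, Complex.conj_re, m.map_re hf]
    simp
  · rw [m.map_im hf.conj, Complex.conj_im, m.map_im hf]
    simpa using m.re_neg hi

/-- `|m f| ≤ m |f|` -/
theorem norm_le {f : X → ℂ} (hf : Bdd f) : ‖m f‖ ≤ m.re fun x => ‖f x‖ := by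
  by_cases h0 : m f = 0
  · rw [h0, norm_zero]
    exact m.re_nonneg hf.norm fun x => norm_nonneg _
  have hn : ‖m f‖ ≠ 0 := norm_ne_zero_iff.2 h0
  set c : ℂ := conj (m f) / ‖m f‖ with hc
  have hcn : ‖c‖ = 1 := by
    rw [hc, norm_div, RCLike.norm_conj, Complex.norm_real, norm_norm, div_self hn]
  have h1 : m (fun x => c * f x) = ‖m f‖ := by
    rw [m.map_cmul c hf, hc, div_mul_eq_mul_div, mul_comm, Complex.mul_conj, Complex.normSq_eq_norm_sq]
    push_cast
    field_simp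
  have h2 : ‖m f‖ = m.re fun x => (c * f x).re := by
    rw [← m.map_re (hf.cmul c), h1, Complex.ofReal_re]
  rw [h2]
  have hr : BddR fun x => (c * f x).re := by
    obtain ⟨C, hC⟩ := hf.cmul c
    exact ⟨C, fun x => (Complex.abs_re_le_norm _).trans (hC x)⟩
  refine m.re_mono hr hf.norm fun x => ?_
  calc (c * f x).re ≤ ‖c * f x‖ := Complex.re_le_norm _
    _ = ‖f x‖ := by rw [norm_mul, hcn, one_mul]

theorem norm_le_of {f : X → ℂ} {C : ℝ} (h : ∀ x, ‖f x‖ ≤ C) : ‖m f‖ ≤ C := by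
  have hf : Bdd f := ⟨C, h⟩
  exact (m.norm_le hf).trans (m.re_le hf.norm h)

theorem n2_nonneg {f : X → ℂ} (hf : Bdd f) : 0 ≤ m.n2 f :=
  m.re_nonneg hf.norm_sq fun x => by positivity

theorem n2_le_of {f : X → ℂ} {C : ℝ} (h : ∀ x, ‖f x‖ ≤ C) : m.n2 f ≤ C ^ 2 := by
  have hf : Bdd f := ⟨C, h⟩
  exact m.re_le hf.norm_sq fun x => pow_le_pow_left₀ (norm_nonneg _) (h x) 2

/-- Cauchy–Schwarz for real functions -/
theorem re_cs {f g : X → ℝ} (hf : BddR f) (hg : BddR g) :
    (m.re fun x => f x * g x) ^ 2 ≤ (m.re fun x => f x ^ 2) * (m.re fun x => g x ^ 2) := by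
  have key : ∀ t : ℝ, 0 ≤ (m.re fun x => g x ^ 2) * (t * t) +
      (-2 * m.re fun x => f x * g x) * t + m.re fun x => f x ^ 2 := by
    intro t
    have h0 : 0 ≤ m.re fun x => (f x - t * g x) ^ 2 :=
      m.re_nonneg ((hf.sub (hg.cmul t)).pow 2) fun x => sq_nonneg _
    have h1 : (fun x => (f x - t * g x) ^ 2) =
        fun x => f x ^ 2 + ((-2 * t) * (f x * g x) + (t * t) * g x ^ 2) := by
      funext x
      ring
    rw [h1, m.re_add (hf.pow 2) (((hf.mul hg).cmul _).add ((hg.pow 2).cmul _)),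
      m.re_add ((hf.mul hg).cmul _) ((hg.pow 2).cmul _), m.re_cmul _ (hf.mul hg),
      m.re_cmul _ (hg.pow 2)] at h0
    linarith
  have hd := discrim_le_zero key
  unfold discrim at hd
  nlinarith

/-- Cauchy–Schwarz -/
theorem cs {f g : X → ℂ} (hf : Bdd f) (hg : Bdd g) :
    ‖m (fun x => f x * g x)‖ ^ 2 ≤ m.n2 f * m.n2 g := by
  have h1 := m.norm_le (hf.mul hg)
  have h2 := m.re_cs hf.norm hg.norm
  have h3 : (fun x => ‖f x * g x‖) = fun x => ‖f x‖ * ‖g x‖ := by
    funext x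
    rw [norm_mul]
  rw [h3] at h1
  calc ‖m (fun x => f x * g x)‖ ^ 2 ≤ (m.re fun x => ‖f x‖ * ‖g x‖) ^ 2 :=
        pow_le_pow_left₀ (norm_nonneg _) h1 2
    _ ≤ _ := h2

/-- `(m|f|)² ≤ m|f|²` -/
theorem re_norm_sq_le {f : X → ℂ} (hf : Bdd f) : (m.re fun x => ‖f x‖) ^ 2 ≤ m.n2 f := by
  have h := m.re_cs hf.norm (BddR.const (X := X) 1)
  simpa [m.re_const, St.n2] using h

theorem norm_sq_le {f : X → ℂ} (hf : Bdd f) : ‖m f‖ ^ 2 ≤ m.n2 f :=
  (pow_le_pow_left₀ (norm_nonneg _) (m.norm_le hf) 2).trans (m.re_norm_sq_le hf)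

/-- the square norm as a complex mean -/
theorem n2_eq {f : X → ℂ} (hf : Bdd f) : (m.n2 f : ℂ) = m (fun x => f x * conj (f x)) := by
  rw [St.n2, ← m.ofReal hf.norm_sq]
  congr 1
  funext x
  rw [Complex.mul_conj, Complex.normSq_eq_norm_sq]

theorem n2_eq' {f : X → ℂ} (hf : Bdd f) : (m.n2 f : ℂ) = m (fun x => conj (f x) * f x) := by
  rw [m.n2_eq hf]
  congr 1
  funext x
  ring

end St

/-! ### characters -/

section char
variable {G : Type u} [AddCommGroup G]

theorem norm_char (ξ : AddChar G Circle) (x : G) : ‖(ξ x : ℂ)‖ = 1 := Circle.norm_coe _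

theorem Bdd.char (ξ : AddChar G Circle) : Bdd (fun x => (ξ x : ℂ)) :=
  ⟨1, fun x => (norm_char ξ x).le⟩

theorem Bdd.char_conj (ξ : AddChar G Circle) : Bdd (fun x => conj (ξ x : ℂ)) :=
  (Bdd.char ξ).conj

theorem conj_char (ξ : AddChar G Circle) (x : G) : conj (ξ x : ℂ) = (ξ⁻¹ x : ℂ) := by
  rw [AddChar.inv_apply', Circle.coe_inv_eq_conj]

theorem char_mul_conj (ξ : AddChar G Circle) (x : G) : (ξ x : ℂ) * conj (ξ x : ℂ) = 1 := by
  rw [Complex.mul_conj, Complex.normSq_eq_norm_sq, norm_char]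
  simp

theorem char_add (ξ : AddChar G Circle) (x y : G) :
    (ξ (x + y) : ℂ) = (ξ x : ℂ) * (ξ y : ℂ) := by
  rw [AddChar.map_add_eq_mul, Circle.coe_mul]

theorem char_mul (ξ ζ : AddChar G Circle) (x : G) :
    ((ξ * ζ) x : ℂ) = (ξ x : ℂ) * (ζ x : ℂ) := by
  rw [AddChar.mul_apply, Circle.coe_mul]

theorem Bdd.trig (Λ : Finset (AddChar G Circle)) (c : AddChar G Circle → ℂ) :
    Bdd (Bohr.trig Λ c) :=
  Bdd.sum Λ fun ξ _ => (Bdd.char ξ).cmul (c ξ)

/-- the mean of a nontrivial character vanishes -/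
theorem mean_char {m : St G} (hm : m.Inv) (ξ : AddChar G Circle) :
    m (fun x => (ξ x : ℂ)) = if ξ = 1 then 1 else 0 := by
  split_ifs with h
  · subst h
    simpa using m.map_one
  · obtain ⟨s, hs⟩ : ∃ s, ξ s ≠ 1 := by
      by_contra hcon
      push Not at hcon
      exact h (by ext x; simp [hcon x])
    have h1 := hm (fun x => (ξ x : ℂ)) s (Bdd.char ξ)
    have h2 : (fun x => (ξ (x + s) : ℂ)) = fun x => (ξ s : ℂ) * (ξ x : ℂ) := by
      funext x
      rw [char_add, mul_comm]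
    rw [h2, m.map_cmul _ (Bdd.char ξ)] at h1
    have h3 : (ξ s : ℂ) ≠ 1 := fun h => hs (by ext; simpa using h)
    have h4 : ((ξ s : ℂ) - 1) * m (fun x => (ξ x : ℂ)) = 0 := by
      rw [sub_mul, h1, one_mul, sub_self]
    exact (mul_eq_zero.1 h4).resolve_left (sub_ne_zero.2 h3)

theorem mean_char_conj {m : St G} (hm : m.Inv) (ξ ζ : AddChar G Circle) :
    m (fun x => (ξ x : ℂ) * conj (ζ x : ℂ)) = if ξ = ζ then 1 else 0 := by
  have h : (fun x => (ξ x : ℂ) * conj (ζ x : ℂ)) = fun x => ((ξ * ζ⁻¹) x : ℂ) := by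
    funext x
    rw [char_mul, conj_char]
  rw [h, mean_char hm]
  simp [mul_inv_eq_one]

/-! ### Fourier coefficients -/

theorem coef_add {m : St G} {f g : G → ℂ} (hf : Bdd f) (hg : Bdd g) (ξ : AddChar G Circle) :
    coef m (fun x => f x + g x) ξ = coef m f ξ + coef m g ξ := by
  unfold coef
  rw [← m.map_add (hf.mul (Bdd.char_conj ξ)) (hg.mul (Bdd.char_conj ξ))]
  congr 1
  funext x
  ring

theorem coef_cmul {m : St G} (c : ℂ) {f : G → ℂ} (hf : Bdd f) (ξ : AddChar G Circle) :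
    coef m (fun x => c * f x) ξ = c * coef m f ξ := by
  unfold coef
  rw [← m.map_cmul c (hf.mul (Bdd.char_conj ξ))]
  congr 1
  funext x
  ring

theorem coef_sub {m : St G} {f g : G → ℂ} (hf : Bdd f) (hg : Bdd g) (ξ : AddChar G Circle) :
    coef m (fun x => f x - g x) ξ = coef m f ξ - coef m g ξ := by
  unfold coef
  rw [← m.map_sub (hf.mul (Bdd.char_conj ξ)) (hg.mul (Bdd.char_conj ξ))]
  congr 1
  funext x
  ring

theorem coef_sum {m : St G} {ι : Type*} (s : Finset ι) {f : ι → G → ℂ} (hf : ∀ i ∈ s, Bdd (f i))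
    (ξ : AddChar G Circle) : coef m (fun x => ∑ i ∈ s, f i x) ξ = ∑ i ∈ s, coef m (f i) ξ := by
  unfold coef
  rw [← m.map_sum s fun i hi => (hf i hi).mul (Bdd.char_conj ξ)]
  congr 1
  funext x
  rw [Finset.sum_mul]

theorem coef_one {m : St G} (f : G → ℂ) : coef m f 1 = m f := by
  unfold coef
  congr 1
  funext x
  simp

theorem coef_char {m : St G} (hm : m.Inv) (ξ ζ : AddChar G Circle) :
    coef m (fun x => (ξ x : ℂ)) ζ = if ξ = ζ then 1 else 0 := mean_char_conj hm ξ ζ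

theorem norm_coef_le {m : St G} {f : G → ℂ} (hf : Bdd f) (ξ : AddChar G Circle) :
    ‖coef m f ξ‖ ≤ m.re fun x => ‖f x‖ := by
  have h := m.norm_le (hf.mul (Bdd.char_conj ξ))
  refine h.trans (le_of_eq ?_)
  congr 1
  funext x
  rw [norm_mul, RCLike.norm_conj, norm_char, mul_one]

open Classical in
theorem coef_trig {m : St G} (hm : m.Inv) (Λ : Finset (AddChar G Circle))
    (c : AddChar G Circle → ℂ) (ζ : AddChar G Circle) :
    coef m (trig Λ c) ζ = if ζ ∈ Λ then c ζ else 0 := by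
  have h : coef m (trig Λ c) ζ = ∑ ξ ∈ Λ, coef m (fun x => c ξ * (ξ x : ℂ)) ζ :=
    coef_sum Λ (fun ξ _ => (Bdd.char ξ).cmul (c ξ)) ζ
  rw [h]
  have h2 : ∀ ξ ∈ Λ, coef m (fun x => c ξ * (ξ x : ℂ)) ζ = if ζ = ξ then c ξ else 0 := by
    intro ξ _
    rw [coef_cmul _ (Bdd.char ξ), coef_char hm]
    by_cases hh : ξ = ζ
    · simp [hh]
    · simp [hh, Ne.symm hh]
  rw [Finset.sum_congr rfl h2, Finset.sum_ite_eq]

/-- translation multiplies the coefficient by `ξ(s)` -/
theorem coef_translate {m : St G} (hm : m.Inv) {f : G → ℂ} (hf : Bdd f) (s : G)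
    (ξ : AddChar G Circle) : coef m (fun x => f (x + s)) ξ = (ξ s : ℂ) * coef m f ξ := by
  unfold coef
  have h := hm (fun x => f x * conj (ξ x : ℂ)) s (hf.mul (Bdd.char_conj ξ))
  rw [← h, ← m.map_cmul _ ((hf.mul (Bdd.char_conj ξ)).comp (fun x => x + s))]
  congr 1
  funext x
  have h1 : (ξ s : ℂ) * conj (ξ (x + s) : ℂ) = conj (ξ x : ℂ) := by
    rw [char_add, _root_.map_mul]
    have := char_mul_conj ξ s
    calc (ξ s : ℂ) * (conj (ξ x : ℂ) * conj (ξ s : ℂ))
        = conj (ξ x : ℂ) * ((ξ s : ℂ) * conj (ξ s : ℂ)) := by ring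
      _ = _ := by rw [this, mul_one]
  calc f (x + s) * conj (ξ x : ℂ) = f (x + s) * ((ξ s : ℂ) * conj (ξ (x + s) : ℂ)) := by rw [h1]
    _ = _ := by ring

theorem n2_translate {m : St G} (hm : m.Inv) {f : G → ℂ} (hf : Bdd f) (s : G) :
    m.n2 (fun x => f (x + s)) = m.n2 f := by
  have h := hm (fun x => ((‖f x‖ ^ 2 : ℝ) : ℂ)) s hf.norm_sq.ofReal
  exact congrArg Complex.re h

/-- modulation -/
theorem coef_mul_char {m : St G} (f : G → ℂ) (ζ ξ : AddChar G Circle) :
    coef m (fun x => (ζ x : ℂ) * f x) ξ = coef m f (ξ * ζ⁻¹) := by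
  unfold coef
  congr 1
  funext x
  have h : conj ((ξ * ζ⁻¹) x : ℂ) = (ζ x : ℂ) * conj (ξ x : ℂ) := by
    rw [char_mul, _root_.map_mul, ← conj_char, Complex.conj_conj, mul_comm]
  rw [h]
  ring

/-- Parseval for a trigonometric polynomial -/
theorem n2_trig {m : St G} (hm : m.Inv) (Λ : Finset (AddChar G Circle))
    (c : AddChar G Circle → ℂ) : m.n2 (trig Λ c) = ∑ ξ ∈ Λ, ‖c ξ‖ ^ 2 := by
  classical
  have h : (m.n2 (trig Λ c) : ℂ) = ∑ ξ ∈ Λ, ((‖c ξ‖ ^ 2 : ℝ) : ℂ) := by
    rw [m.n2_eq (Bdd.trig Λ c)]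
    have h1 : (fun x => trig Λ c x * conj (trig Λ c x)) =
        fun x => ∑ ξ ∈ Λ, conj (c ξ) * (trig Λ c x * conj (ξ x : ℂ)) := by
      funext x
      conv_lhs => rw [trig, _root_.map_sum, Finset.mul_sum]
      refine Finset.sum_congr rfl fun ξ _ => ?_
      rw [_root_.map_mul, trig]
      ring
    rw [h1, m.map_sum Λ fun ξ _ => ((Bdd.trig Λ c).mul (Bdd.char_conj ξ)).cmul _]
    refine Finset.sum_congr rfl fun ξ hξ => ?_
    rw [m.map_cmul _ ((Bdd.trig Λ c).mul (Bdd.char_conj ξ))]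
    have h2 := coef_trig hm Λ c ξ
    rw [if_pos hξ] at h2
    unfold coef at h2
    rw [h2, mul_comm, Complex.mul_conj, Complex.normSq_eq_norm_sq]
  exact_mod_cast h

/-- Pythagoras: subtracting a partial Fourier sum -/
theorem n2_sub_trig {m : St G} (hm : m.Inv) {f : G → ℂ} (hf : Bdd f)
    (Λ : Finset (AddChar G Circle)) :
    m.n2 (fun x => f x - trig Λ (coef m f) x) = m.n2 f - ∑ ξ ∈ Λ, ‖coef m f ξ‖ ^ 2 := by
  classical
  set P := trig Λ (coef m f) with hP
  have hPb : Bdd P := Bdd.trig _ _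
  -- `m (f * conj P) = Σ |coef|²`
  have h1 : m (fun x => f x * conj (P x)) = ∑ ξ ∈ Λ, ((‖coef m f ξ‖ ^ 2 : ℝ) : ℂ) := by
    have e1 : (fun x => f x * conj (P x)) =
        fun x => ∑ ξ ∈ Λ, conj (coef m f ξ) * (f x * conj (ξ x : ℂ)) := by
      funext x
      rw [hP, trig, _root_.map_sum, Finset.mul_sum]
      refine Finset.sum_congr rfl fun ξ _ => ?_
      rw [_root_.map_mul]
      ring
    rw [e1, m.map_sum Λ fun ξ _ => (hf.mul (Bdd.char_conj ξ)).cmul _]
    refine Finset.sum_congr rfl fun ξ _ => ?_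
    rw [m.map_cmul _ (hf.mul (Bdd.char_conj ξ))]
    change conj (coef m f ξ) * coef m f ξ = _
    rw [mul_comm, Complex.mul_conj, Complex.normSq_eq_norm_sq]
  have h2 : m (fun x => conj (f x) * P x) = ∑ ξ ∈ Λ, ((‖coef m f ξ‖ ^ 2 : ℝ) : ℂ) := by
    have e : (fun x => conj (f x) * P x) = fun x => conj (f x * conj (P x)) := by
      funext x
      simp
    rw [e, m.map_conj (hf.mul hPb.conj), h1, _root_.map_sum]
    exact Finset.sum_congr rfl fun ξ _ => Complex.conj_ofReal _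
  have h3 : (m.n2 P : ℂ) = ∑ ξ ∈ Λ, ((‖coef m f ξ‖ ^ 2 : ℝ) : ℂ) := by
    rw [hP, n2_trig hm]
    push_cast
    rfl
  have h4 : (m.n2 (fun x => f x - P x) : ℂ) =
      (m.n2 f : ℂ) - ∑ ξ ∈ Λ, ((‖coef m f ξ‖ ^ 2 : ℝ) : ℂ) := by
    rw [m.n2_eq (hf.sub hPb)]
    have e : (fun x => (f x - P x) * conj (f x - P x)) =
        fun x => (f x * conj (f x) - f x * conj (P x)) - (conj (f x) * P x - P x * conj (P x)) := by
      funext x
      rw [_root_.map_sub]
      ring
    rw [e, m.map_sub ((hf.mul hf.conj).sub (hf.mul hPb.conj))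
      ((hf.conj.mul hPb).sub (hPb.mul hPb.conj)), m.map_sub (hf.mul hf.conj) (hf.mul hPb.conj),
      m.map_sub (hf.conj.mul hPb) (hPb.mul hPb.conj), h1, h2, ← m.n2_eq hf, ← m.n2_eq hPb, h3]
    ring
  exact_mod_cast h4

/-- Bessel -/
theorem bessel {m : St G} (hm : m.Inv) {f : G → ℂ} (hf : Bdd f)
    (Λ : Finset (AddChar G Circle)) : ∑ ξ ∈ Λ, ‖coef m f ξ‖ ^ 2 ≤ m.n2 f := by
  have h := n2_sub_trig hm hf Λ
  have h2 := m.n2_nonneg (hf.sub (Bdd.trig Λ (coef m f)))
  linarith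

/-- the large spectrum is finite -/
theorem spec_finite {m : St G} (hm : m.Inv) {f : G → ℂ} (hf : Bdd f) {ε : ℝ} (hε : 0 < ε) :
    ∃ Λ : Finset (AddChar G Circle), (∀ ξ, ξ ∈ Λ ↔ ε ≤ ‖coef m f ξ‖) ∧
      (Λ.card : ℝ) * ε ^ 2 ≤ m.n2 f := by
  classical
  have key : ∀ Λ : Finset (AddChar G Circle), (∀ ξ ∈ Λ, ε ≤ ‖coef m f ξ‖) →
      (Λ.card : ℝ) * ε ^ 2 ≤ m.n2 f := by
    intro Λ hΛ
    refine le_trans ?_ (bessel hm hf Λ)
    rw [← nsmul_eq_mul, ← Finset.sum_const]
    exact Finset.sum_le_sum fun ξ hξ => pow_le_pow_left₀ hε.le (hΛ ξ hξ) 2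
  have hfin : {ξ : AddChar G Circle | ε ≤ ‖coef m f ξ‖}.Finite := by
    by_contra hinf
    have hinf' : {ξ : AddChar G Circle | ε ≤ ‖coef m f ξ‖}.Infinite := hinf
    obtain ⟨n, hn⟩ := exists_nat_gt (m.n2 f / ε ^ 2)
    obtain ⟨Λ, hΛ1, hΛ2⟩ := hinf'.exists_subset_card_eq n
    have h1 := key Λ fun ξ hξ => hΛ1 hξ
    rw [hΛ2] at h1
    have h2 : m.n2 f < n * ε ^ 2 := (div_lt_iff₀ (by positivity)).1 hn
    linarith
  refine ⟨hfin.toFinset, fun ξ => ?_, key _ fun ξ hξ => ?_⟩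
  · rw [Set.Finite.mem_toFinset]
    rfl
  · rw [Set.Finite.mem_toFinset] at hξ
    exact hξ

end char

/-! ### the solution mean -/

section sol
variable {G : Type u} [AddCommGroup G] {d : ℕ} {m : St G} {φ : Fin d → G →+ G}
  {M : St (Fin d → G)}

theorem IsSol.marg_re (h : IsSol m φ M) (j : Fin d) {f : G → ℝ} (hf : BddR f) :
    M.re (fun x => f (x j)) = m.re f :=
  congrArg Complex.re (h.marg j (fun x => (f x : ℂ)) hf.ofReal)

theorem IsSol.marg_n2 (h : IsSol m φ M) (j : Fin d) {f : G → ℂ} (hf : Bdd f) :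
    M.n2 (fun x => f (x j)) = m.n2 f :=
  h.marg_re j hf.norm_sq

theorem IsSol.prod_re (h : IsSol m φ M) {W : (Fin d → G) → ℝ} (hW : BddR W)
    (hinv : ∀ (a : G) x, W (fun j => x j + a) = W x) (j : Fin d) {f : G → ℝ} (hf : BddR f) :
    M.re (fun x => W x * f (x j)) = M.re W * m.re f := by
  have h1 := h.prod (fun x => (W x : ℂ)) hW.ofReal (fun a x => by rw [hinv a x]) j
    (fun x => (f x : ℂ)) hf.ofReal
  rw [M.ofReal hW, m.ofReal hf] at h1
  have h2 := congrArg Complex.re h1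
  rw [← Complex.ofReal_mul, Complex.ofReal_re] at h2
  rw [← h2]
  unfold St.re
  congr 2
  funext x
  push_cast
  rfl

/-- functions equal on the solution group have the same mean -/
theorem IsSol.congr (h : IsSol m φ M) {F F' : (Fin d → G) → ℂ} (hF : Bdd F) (hF' : Bdd F')
    (he : ∀ x, ∑ j, φ j (x j) = 0 → F x = F' x) : M F = M F' := by
  have h1 := h.supp (fun x => F x - F' x) (hF.sub hF') fun x hx => by rw [he x hx, sub_self]
  rw [M.map_sub hF hF'] at h1
  exact sub_eq_zero.1 h1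

/-- the mean of a character of `G^d` over the solutions -/
theorem IsSol.char (h : IsSol m φ M) (θ : AddChar (Fin d → G) Circle) :
    ((∀ x, ∑ j, φ j (x j) = 0 → θ x = 1) ∧ M (fun x => (θ x : ℂ)) = 1) ∨
    ((¬ ∀ x, ∑ j, φ j (x j) = 0 → θ x = 1) ∧ M (fun x => (θ x : ℂ)) = 0) := by
  by_cases hθ : ∀ x, ∑ j, φ j (x j) = 0 → θ x = 1
  · left
    refine ⟨hθ, ?_⟩
    rw [h.congr (Bdd.char θ) (Bdd.const 1) fun x hx => by simp [hθ x hx], M.map_one]
  · right
    refine ⟨hθ, ?_⟩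
    push Not at hθ
    obtain ⟨s, hs, hs1⟩ := hθ
    have h1 := h.inv s hs (fun x => (θ x : ℂ)) (Bdd.char θ)
    have h2 : (fun x => (θ (x + s) : ℂ)) = fun x => (θ s : ℂ) * (θ x : ℂ) := by
      funext x
      rw [char_add, mul_comm]
    rw [h2, M.map_cmul _ (Bdd.char θ)] at h1
    have h3 : (θ s : ℂ) ≠ 1 := fun h => hs1 (by ext; simpa using h)
    have h4 : ((θ s : ℂ) - 1) * M (fun x => (θ x : ℂ)) = 0 := by
      rw [sub_mul, h1, one_mul, sub_self]
    exact (mul_eq_zero.1 h4).resolve_left (sub_ne_zero.2 h3)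

/-- hybrid argument: replace the factors one after the other -/
theorem hybrid {Y : Type u} (M : St (Fin d → Y)) (W : (Fin d → Y) → ℂ) (hW : Bdd W)
    (u w : Fin d → Y → ℂ) (hu : ∀ j, Bdd (u j)) (hw : ∀ j, Bdd (w j)) (e : ℝ)
    (h : ∀ (i : Fin d) (g : Fin d → Y → ℂ), (∀ j, j ≠ i → g j = u j ∨ g j = w j) →
      (g i = fun x => u i x - w i x) → ‖M (fun x => W x * ∏ j, g j (x j))‖ ≤ e) :
    ‖M (fun x => W x * ∏ j, u j (x j)) - M (fun x => W x * ∏ j, w j (x j))‖ ≤ d * e := by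
  classical
  have hb : ∀ g : Fin d → Y → ℂ, (∀ j, Bdd (g j)) → Bdd (fun x : Fin d → Y => W x * ∏ j, g j (x j)) :=
    fun g hg => hW.mul (Bdd.prod _ fun j _ => (hg j).comp fun x : Fin d → Y => x j)
  have key : ∀ T : Finset (Fin d),
      ‖M (fun x => W x * ∏ j, u j (x j)) -
        M (fun x => W x * ∏ j, (if j ∈ T then w j else u j) (x j))‖ ≤ T.card * e := by
    intro T
    induction T using Finset.induction_on with
    | empty => simp
    | insert i T hi ih =>
      have hT : ∀ (T : Finset (Fin d)) j, Bdd (if j ∈ T then w j else u j) := by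
        intro T j
        split_ifs
        · exact hw j
        · exact hu j
      set g : Fin d → Y → ℂ := fun j => if j = i then (fun x => u i x - w i x) else
        (if j ∈ T then w j else u j) with hg
      have hgi : g i = fun x => u i x - w i x := by simp [hg]
      have hgj : ∀ j, j ≠ i → g j = (if j ∈ T then w j else u j) := by
        intro j hj
        simp [hg, hj]
      have h1 := h i g (fun j hj => by
        rw [hgj j hj]
        split_ifs
        · exact Or.inr rfl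
        · exact Or.inl rfl) hgi
      have h2 : (fun x : Fin d → Y => W x * ∏ j, g j (x j)) = fun x =>
          W x * ∏ j, (if j ∈ T then w j else u j) (x j) -
          W x * ∏ j, (if j ∈ insert i T then w j else u j) (x j) := by
        funext x
        rw [← mul_sub]
        congr 1
        rw [← Finset.mul_prod_erase univ (fun j => g j (x j)) (mem_univ i),
          ← Finset.mul_prod_erase univ (fun j => (if j ∈ T then w j else u j) (x j)) (mem_univ i),
          ← Finset.mul_prod_erase univ (fun j => (if j ∈ insert i T then w j else u j) (x j))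
            (mem_univ i)]
        have e1 : ∏ j ∈ univ.erase i, g j (x j) =
            ∏ j ∈ univ.erase i, (if j ∈ T then w j else u j) (x j) :=
          Finset.prod_congr rfl fun j hj => by rw [hgj j (Finset.ne_of_mem_erase hj)]
        have e2 : ∏ j ∈ univ.erase i, (if j ∈ insert i T then w j else u j) (x j) =
            ∏ j ∈ univ.erase i, (if j ∈ T then w j else u j) (x j) :=
          Finset.prod_congr rfl fun j hj => by
            have : j ≠ i := Finset.ne_of_mem_erase hj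
            simp [this]
        rw [e1, e2, hgi]
        simp only [hi, if_false, mem_insert_self, if_true]
        ring
      rw [h2, M.map_sub (hb _ (hT T)) (hb _ (hT (insert i T)))] at h1
      rw [card_insert_of_notMem hi]
      push_cast
      calc _ = ‖(M (fun x => W x * ∏ j, u j (x j)) -
            M (fun x => W x * ∏ j, (if j ∈ T then w j else u j) (x j))) +
            (M (fun x => W x * ∏ j, (if j ∈ T then w j else u j) (x j)) -
            M (fun x => W x * ∏ j, (if j ∈ insert i T then w j else u j) (x j)))‖ := by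
              congr 1; ring
        _ ≤ _ := (norm_add_le _ _).trans (add_le_add ih h1)
        _ = _ := by ring
  have := key univ
  simpa using this

end sol

end Pool.Agent.R161.Bohr
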