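import Mathlib

/-!
MP_0fda35_co: Bohr sets in sums of endomorphic images of a dense set.
Definitions and the statements of the parts of the proof.
-/

set_option autoImplicit false

namespace Pool.Agent.R161.Bohr

open Finset
open scoped ComplexConjugate

universe u v

/-- bounded complex function -/
def Bdd {X : Type v} (f : X → ℂ) : Prop := ∃ C : ℝ, ∀ x, ‖f x‖ ≤ C

/-- bounded real function -/
def BddR {X : Type v} (f : X → ℝ) : Prop := ∃ C : ℝ, ∀ x, |f x| ≤ C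

/-- translation-invariant mean on the bounded real functions on `G` -/
structure IsMean {G : Type u} [AddCommGroup G] (m : (G → ℝ) → ℝ) : Prop where
  add : ∀ f g, BddR f → BddR g → m (fun x => f x + g x) = m f + m g
  smul : ∀ (c : ℝ) f, BddR f → m (fun x => c * f x) = c * m f
  nonneg : ∀ f, BddR f → (∀ x, 0 ≤ f x) → 0 ≤ m f
  one : m (fun _ => 1) = 1
  inv : ∀ f (s : G), BddR f → m (fun x => f (x + s)) = m f

/-- upper Banach density -/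
noncomputable def upperBanach {G : Type u} [AddCommGroup G] (A : Set G) : ℝ :=
  sSup {r : ℝ | ∃ m : (G → ℝ) → ℝ, IsMean m ∧ r = m (A.indicator fun _ => 1)}

/-- finitely additive probability on `X`: a state on the bounded complex functions
(nothing is required for unbounded functions) -/
structure St (X : Type v) where
  toFun : (X → ℂ) → ℂ
  add' : ∀ f g, Bdd f → Bdd g → toFun (fun x => f x + g x) = toFun f + toFun g
  smul' : ∀ (c : ℂ) f, Bdd f → toFun (fun x => c * f x) = c * toFun f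
  real' : ∀ f : X → ℝ, BddR f → (toFun (fun x => (f x : ℂ))).im = 0
  nonneg' : ∀ f : X → ℝ, BddR f → (∀ x, 0 ≤ f x) → 0 ≤ (toFun (fun x => (f x : ℂ))).re
  one' : toFun (fun _ => 1) = 1

instance {X : Type v} : CoeFun (St X) (fun _ => (X → ℂ) → ℂ) := ⟨St.toFun⟩

/-- value on a real function -/
noncomputable def St.re {X : Type v} (m : St X) (f : X → ℝ) : ℝ := (m (fun x => (f x : ℂ))).re

/-- square of the `L²` norm -/
noncomputable def St.n2 {X : Type v} (m : St X) (f : X → ℂ) : ℝ := m.re (fun x => ‖f x‖ ^ 2)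

/-- invariance under translations -/
def St.Inv {G : Type u} [AddCommGroup G] (m : St G) : Prop :=
  ∀ f (s : G), Bdd f → m (fun x => f (x + s)) = m f

/-- `m` is an extreme point of the set of invariant means: every invariant positive functional `q`
dominated by `m` is proportional to `m` -/
def St.Ext {G : Type u} [AddCommGroup G] (m : St G) : Prop :=
  ∀ q : (G → ℝ) → ℝ,
    (∀ f g, BddR f → BddR g → q (fun x => f x + g x) = q f + q g) →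
    (∀ (c : ℝ) f, BddR f → q (fun x => c * f x) = c * q f) →
    (∀ f, BddR f → (∀ x, 0 ≤ f x) → 0 ≤ q f ∧ q f ≤ m.re f) →
    (∀ f (s : G), BddR f → q (fun x => f (x + s)) = q f) →
    ∀ f, BddR f → q f = q (fun _ => 1) * m.re f

/-- Fourier coefficient -/
noncomputable def coef {G : Type u} [AddCommGroup G] (m : St G) (f : G → ℂ)
    (ξ : AddChar G Circle) : ℂ := m (fun x => f x * conj (ξ x : ℂ))

/-- trigonometric polynomial -/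
noncomputable def trig {G : Type u} [AddCommGroup G] (Λ : Finset (AddChar G Circle))
    (c : AddChar G Circle → ℂ) : G → ℂ := fun x => ∑ ξ ∈ Λ, c ξ * (ξ x : ℂ)

/-- averaging along finite index subgroups -/
def AVG {G : Type u} [AddCommGroup G] (m : St G) : Prop :=
  ∀ f, Bdd f → ∀ L : AddSubgroup G, L.index ≠ 0 → ∀ β : ℝ, 0 ≤ β →
    (∀ ξ : AddChar G Circle, (∀ l ∈ L, ξ l = 1) → ‖coef m f ξ‖ ≤ β) →
    ∀ ε : ℝ, 0 < ε → ∃ (s : Finset G) (w : G → ℝ), (∀ l ∈ s, l ∈ L ∧ 0 ≤ w l) ∧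
      ∑ l ∈ s, w l = 1 ∧
      m.n2 (fun x => ∑ l ∈ s, (w l : ℂ) * f (x + l)) ≤ (L.index : ℝ) * β ^ 2 + ε

/-- weak mixing modulo the characters -/
def WM {G : Type u} [AddCommGroup G] (m : St G) : Prop :=
  ∀ g, Bdd g → ∀ τ : ℝ, 0 ≤ τ →
    (∀ Λ : Finset (AddChar G Circle), ∑ ξ ∈ Λ, ‖coef m g ξ‖ ^ 2 ≤ τ ^ 2) →
    ∀ L : AddSubgroup G, L.index ≠ 0 → ∀ (K : Finset G) (Ξ : Finset (AddChar G Circle))
      (ε : ℝ), 0 < ε → ∃ k ∈ L, ∀ k' ∈ K, ∀ ξ ∈ Ξ,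
        ‖m (fun x => g (x + k) * conj (g (x + k')) * conj (ξ x : ℂ))‖ ≤ τ ^ 2 + ε

/-- `M` is a mean on the group of solutions of `∑ φ_j x_j = 0` compatible with `m` -/
structure IsSol {G : Type u} [AddCommGroup G] {d : ℕ} (m : St G) (φ : Fin d → G →+ G)
    (M : St (Fin d → G)) : Prop where
  inv : ∀ s : Fin d → G, ∑ j, φ j (s j) = 0 → ∀ F, Bdd F → M (fun x => F (x + s)) = M F
  marg : ∀ (j : Fin d) (f : G → ℂ), Bdd f → M (fun x => f (x j)) = m f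
  prod : ∀ W, Bdd W → (∀ (a : G) x, W (fun j => x j + a) = W x) → ∀ (j : Fin d) (f : G → ℂ),
    Bdd f → M (fun x => W x * f (x j)) = M W * m f
  supp : ∀ F, Bdd F → (∀ x, ∑ j, φ j (x j) = 0 → F x = 0) → M F = 0

/-- the images have index at most `N` -/
def IdxLe {G : Type u} [AddCommGroup G] {d : ℕ} (φ : Fin d → G →+ G) (N : ℕ) : Prop :=
  ∀ j, (φ j).range.index ≠ 0 ∧ (φ j).range.index ≤ N

/-- the conclusion of Claim 4.2 -/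
def C42 {G : Type u} [AddCommGroup G] {d : ℕ} (m : St G) (N : ℕ) (M : St (Fin d → G)) : Prop :=
  ∀ (ω : AddChar (Fin d → G) Circle) (g : Fin d → G → ℂ), (∀ j, Bdd (g j)) →
    ∀ (j0 : Fin d) (ε : ℝ), 0 ≤ ε → (∀ ξ, ‖coef m (g j0) ξ‖ ≤ ε) →
    (∀ j, j ≠ j0 → m.n2 (g j) ≤ 1) →
    ‖M (fun x => (ω x : ℂ) * ∏ j, g j (x j))‖ ≤ N * ε

/-- the kernel `|(1+z)/2|^(2p)` -/
noncomputable def kp (p : ℕ) (z : Circle) : ℝ := (‖(1 : ℂ) + (z : ℂ)‖ ^ 2 / 4) ^ p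

/-- the localising weight on `G^d`: product over `j` and `ξ ∈ Ω` of `kp (ξ (x_j - x_{j₁}))` -/
noncomputable def Wt {G : Type u} [AddCommGroup G] {d : ℕ} (j1 : Fin d)
    (Ω : Finset (AddChar G Circle)) (p : ℕ) (x : Fin d → G) : ℝ :=
  ∏ j, ∏ ξ ∈ Ω, kp p (ξ (x j - x j1))

/-! ## Statements -/

/-- (M1) an extreme invariant mean with large value on `A` -/
def S_ext : Prop := ∀ (G : Type u) [AddCommGroup G] (A : Set G) (δ : ℝ), δ < upperBanach A →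
  0 < δ → ∃ m : St G, m.Inv ∧ m.Ext ∧ δ ≤ m.re (A.indicator fun _ => 1)

/-- (M0) abelian groups are amenable -/
def S_mean : Prop := ∀ (H : Type u) [AddCommGroup H], ∃ m : St H, m.Inv

/-- (M4) the solution mean exists -/
def S_sol : Prop := ∀ (G : Type u) [AddCommGroup G] (m : St G), m.Inv → ∀ (d : ℕ), 0 < d →
  ∀ φ : Fin d → G →+ G, (∀ a, ∑ j, φ j a = 0) → ∃ M : St (Fin d → G), IsSol m φ M

/-- a Hilbert space model of `L²(m)` -/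
structure IsModel {G : Type u} [AddCommGroup G] {H : Type u} [NormedAddCommGroup H]
    [InnerProductSpace ℂ H] (m : St G) (J : (G → ℂ) → H) (T : G → H →L[ℂ] H)
    (E : AddChar G Circle → H →L[ℂ] H) : Prop where
  J_add : ∀ f g, Bdd f → Bdd g → J (fun x => f x + g x) = J f + J g
  J_smul : ∀ (c : ℂ) f, Bdd f → J (fun x => c * f x) = c • J f
  J_inner : ∀ f g, Bdd f → Bdd g → inner ℂ (J f) (J g) = m (fun x => conj (f x) * g x)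
  J_dense : ∀ (x : H) (ε : ℝ), 0 < ε → ∃ f, Bdd f ∧ ‖x - J f‖ < ε
  T_J : ∀ (s : G) f, Bdd f → T s (J f) = J (fun x => f (x + s))
  T_zero : ∀ x, T 0 x = x
  T_add : ∀ s t x, T (s + t) x = T s (T t x)
  T_inner : ∀ s x y, inner ℂ (T s x) (T s y) = (inner ℂ x y : ℂ)
  E_J : ∀ (ξ : AddChar G Circle) f, Bdd f → E ξ (J f) = J (fun x => (ξ x : ℂ) * f x)
  E_one : ∀ x, E 1 x = x
  E_mul : ∀ ξ ζ x, E (ξ * ζ) x = E ξ (E ζ x)
  E_inner : ∀ ξ x y, inner ℂ (E ξ x) (E ξ y) = (inner ℂ x y : ℂ)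
  T_E : ∀ s ξ x, T s (E ξ x) = (ξ s : ℂ) • E ξ (T s x)

/-- (M2a) the model exists -/
def S_model : Prop := ∀ (G : Type u) [AddCommGroup G] (m : St G), m.Inv →
  ∃ (H : Type u) (_ : NormedAddCommGroup H) (_ : InnerProductSpace ℂ H) (_ : CompleteSpace H)
    (J : (G → ℂ) → H) (T : G → H →L[ℂ] H) (E : AddChar G Circle → H →L[ℂ] H), IsModel m J T E

/-- unitary representation of an abelian group -/
structure IsRep {G : Type u} [AddCommGroup G] {H : Type u} [NormedAddCommGroup H]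
    [InnerProductSpace ℂ H] (T : G → H →L[ℂ] H) : Prop where
  zero : ∀ x, T 0 x = x
  add : ∀ s t x, T (s + t) x = T s (T t x)
  inner : ∀ s x y, inner ℂ (T s x) (T s y) = (inner ℂ x y : ℂ)

/-- (M2b) mean ergodic theorem along a subgroup -/
def S_met : Prop := ∀ (G : Type u) [AddCommGroup G] (H : Type u) [NormedAddCommGroup H]
  [InnerProductSpace ℂ H] [CompleteSpace H] (T : G → H →L[ℂ] H), IsRep T →
  ∀ (L : AddSubgroup G) (x : H), ∃ y : H, (∀ l ∈ L, T l y = y) ∧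
    (∀ z : H, (∀ l ∈ L, T l z = z) → inner ℂ z (x - y) = (0 : ℂ)) ∧
    ∀ ε : ℝ, 0 < ε → ∃ (s : Finset G) (w : G → ℝ), (∀ l ∈ s, l ∈ L ∧ 0 ≤ w l) ∧
      ∑ l ∈ s, w l = 1 ∧ ‖∑ l ∈ s, (w l : ℂ) • T l x - y‖ < ε

/-- (M3a) weak mixing dichotomy for unitary representations of abelian groups: if
`|⟨w, T_k v⟩|²` has nonzero mean then `v` is not orthogonal to the eigenvectors -/
def S_rep : Prop := ∀ (G : Type u) [AddCommGroup G] (m : St G), m.Inv →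
  ∀ (H : Type u) [NormedAddCommGroup H] [InnerProductSpace ℂ H] [CompleteSpace H]
    (T : G → H →L[ℂ] H), IsRep T → ∀ v w : H,
    m.re (fun k => ‖(inner ℂ w (T k v) : ℂ)‖ ^ 2) ≠ 0 →
    ∃ (x : H) (χ : AddChar G Circle), (∀ g, T g x = (χ g : ℂ) • x) ∧ (inner ℂ x v : ℂ) ≠ 0

/-- (M2c) invariant vectors are constants for an extreme mean; eigenvectors are characters -/
def S_erg : Prop := ∀ (G : Type u) [AddCommGroup G] (m : St G), m.Inv → m.Ext →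
  ∀ (H : Type u) [NormedAddCommGroup H] [InnerProductSpace ℂ H] [CompleteSpace H]
    (J : (G → ℂ) → H) (T : G → H →L[ℂ] H) (E : AddChar G Circle → H →L[ℂ] H), IsModel m J T E →
    ∀ (χ : AddChar G Circle) (x : H), (∀ s, T s x = (χ s : ℂ) • x) →
      ∃ c : ℂ, x = c • J (fun y => (χ y : ℂ))

/-- (M2d) invariant vectors for a finite index subgroup -/
def S_fin : Prop := ∀ (G : Type u) [AddCommGroup G] (m : St G), m.Inv → m.Ext →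
  ∀ (H : Type u) [NormedAddCommGroup H] [InnerProductSpace ℂ H] [CompleteSpace H]
    (J : (G → ℂ) → H) (T : G → H →L[ℂ] H) (E : AddChar G Circle → H →L[ℂ] H), IsModel m J T E →
    ∀ (L : AddSubgroup G), L.index ≠ 0 → ∀ x : H, (∀ l ∈ L, T l x = x) →
      ∀ Ξ : Finset (AddChar G Circle), (∀ ξ : AddChar G Circle, (∀ l ∈ L, ξ l = 1) → ξ ∈ Ξ) →
      x ∈ Submodule.span ℂ ((fun ξ : AddChar G Circle => J (fun y => (ξ y : ℂ))) ''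
        (Ξ : Set (AddChar G Circle)))

/-- characters trivial on a finite index subgroup -/
def S_ch : Prop := ∀ (G : Type u) [AddCommGroup G] (L : AddSubgroup G), L.index ≠ 0 →
  ∃ Ξ : Finset (AddChar G Circle), (∀ ξ, ξ ∈ Ξ ↔ ∀ l ∈ L, ξ l = 1) ∧ Ξ.card ≤ L.index ∧
    ∀ g, g ∉ L → ∃ ξ ∈ Ξ, ξ g ≠ 1

/-- extension of characters from a subgroup -/
def S_chext : Prop := ∀ (G : Type u) [AddCommGroup G] (L : AddSubgroup G)
  (χ : AddChar L Circle), ∃ ψ : AddChar G Circle, ∀ l : L, ψ l = χ l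

/-- (M2e) -/
def S_avg : Prop := ∀ (G : Type u) [AddCommGroup G] (m : St G), m.Inv → m.Ext → AVG m

/-- (M3b) -/
def S_wm : Prop := ∀ (G : Type u) [AddCommGroup G] (m : St G), m.Inv → m.Ext → WM m

/-- (M6) Claim 4.1 -/
def S_c41 : Prop := ∀ (G : Type u) [AddCommGroup G] (m : St G), m.Inv → AVG m → WM m →
  ∀ (d N : ℕ) (φ : Fin d → G →+ G), IdxLe φ N → ∀ M : St (Fin d → G), IsSol m φ M →
  ∀ j0 j1 j2 : Fin d, j0 ≠ j1 → j0 ≠ j2 → j1 ≠ j2 → ∀ (ω : AddChar (Fin d → G) Circle)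
    (g : Fin d → G → ℂ), (∀ j, Bdd (g j)) → ∀ C τ : ℝ, 1 ≤ C → 0 ≤ τ →
    (∀ j, j ≠ j0 → ∀ x, ‖g j x‖ ≤ C) →
    (∀ Λ : Finset (AddChar G Circle), ∑ ξ ∈ Λ, ‖coef m (g j0) ξ‖ ^ 2 ≤ τ ^ 2) →
    ‖M (fun x => (ω x : ℂ) * ∏ j, g j (x j))‖ ≤ N * τ * C ^ d

/-- (M5) Claim 4.2 (i): trigonometric polynomials -/
def S_c42i : Prop := ∀ (G : Type u) [AddCommGroup G] (m : St G), m.Inv →
  ∀ (d N : ℕ) (φ : Fin d → G →+ G), IdxLe φ N → ∀ M : St (Fin d → G), IsSol m φ M →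
  ∀ j0 j1 j2 : Fin d, j0 ≠ j1 → j0 ≠ j2 → j1 ≠ j2 → ∀ (ω : AddChar (Fin d → G) Circle)
    (Λ : Fin d → Finset (AddChar G Circle)) (c : Fin d → AddChar G Circle → ℂ) (ε : ℝ), 0 ≤ ε →
    (∀ ξ ∈ Λ j0, ‖c j0 ξ‖ ≤ ε) → (∀ j, j ≠ j0 → ∑ ξ ∈ Λ j, ‖c j ξ‖ ^ 2 ≤ 1) →
    ‖M (fun x => (ω x : ℂ) * ∏ j, trig (Λ j) (c j) (x j))‖ ≤ N * ε

/-- (M6') Claim 4.2 -/
def S_c42 : Prop := ∀ (G : Type u) [AddCommGroup G] (m : St G), m.Inv → AVG m → WM m →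
  ∀ (d N : ℕ), 3 ≤ d → ∀ (φ : Fin d → G →+ G), IdxLe φ N → ∀ M : St (Fin d → G), IsSol m φ M →
  C42 m N M

/-- (K) expansion of products of kernels -/
def S_ker : Prop := ∀ (X : Type u) [AddCommGroup X] (ι : Type u) [Fintype ι]
  (ω : ι → AddChar X Circle) (p : ℕ), ∃ (R : Type u) (_ : Fintype R) (v : R → ℝ)
  (θ : R → AddChar X Circle) (r0 : R), (∀ r, 0 ≤ v r) ∧ ∑ r, v r = 1 ∧ θ r0 = 1 ∧
    (1 / (2 * (p : ℝ) + 1)) ^ Fintype.card ι ≤ v r0 ∧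
    Fintype.card R ≤ (2 * p + 1) ^ Fintype.card ι ∧
    ∀ x, ((∏ i, kp p (ω i x) : ℝ) : ℂ) = ∑ r, (v r : ℂ) * (θ r x : ℂ)

/-- (M7a) convolution with a Bohr kernel -/
def S_beta : Prop := ∀ (κ : ℝ), 0 < κ → ∀ K : ℕ, ∃ Q : ℕ, ∀ (G : Type u) [AddCommGroup G]
  (m : St G), m.Inv → ∀ Λ : Finset (AddChar G Circle), Λ.card ≤ K → ∀ f : G → ℝ,
  (∀ x, 0 ≤ f x ∧ f x ≤ 1) → ∃ (f1 : G → ℝ) (Ω : Finset (AddChar G Circle))
    (b : AddChar G Circle → ℝ), Ω.card ≤ Q ∧ 1 ∈ Ω ∧ b 1 = 1 ∧ (∀ ξ, 0 ≤ b ξ ∧ b ξ ≤ 1) ∧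
    (∀ ξ, ξ ∉ Ω → b ξ = 0) ∧ (∀ ξ ∈ Λ, 1 - κ ≤ b ξ) ∧ (∀ x, 0 ≤ f1 x ∧ f1 x ≤ 1) ∧
    ∀ x, (f1 x : ℂ) = trig Ω (fun ξ => (b ξ : ℂ) * coef m (fun y => (f y : ℂ)) ξ) x

/-- (M7b) lower bound for the weight -/
def S_wt : Prop := ∀ (G : Type u) [AddCommGroup G] (m : St G), m.Inv →
  ∀ (d : ℕ) (φ : Fin d → G →+ G) (M : St (Fin d → G)), IsSol m φ M →
  ∀ (j1 : Fin d) (Ω : Finset (AddChar G Circle)) (p : ℕ),
    (1 / (2 * (p : ℝ) + 1)) ^ (d * Ω.card) ≤ M.re (Wt j1 Ω p) ∧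
    ∃ (R : Type u) (_ : Fintype R) (v : R → ℝ) (θ : R → AddChar (Fin d → G) Circle),
      (∀ r, 0 ≤ v r) ∧ ∑ r, v r = 1 ∧ ∀ x, (Wt j1 Ω p x : ℂ) = ∑ r, (v r : ℂ) * (θ r x : ℂ)

/-- (M7c) main term: `f1` is nearly constant on the support of the weight -/
def S_main : Prop := ∀ (G : Type u) [AddCommGroup G] (m : St G), m.Inv →
  ∀ (d : ℕ) (φ : Fin d → G →+ G) (M : St (Fin d → G)), IsSol m φ M →
  ∀ (j1 : Fin d) (Ω : Finset (AddChar G Circle)) (p : ℕ) (f1 : G → ℝ)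
    (a : AddChar G Circle → ℂ) (δ η : ℝ), (∀ x, 0 ≤ f1 x ∧ f1 x ≤ 1) → (∀ ξ, ‖a ξ‖ ≤ 1) →
    (∀ x, (f1 x : ℂ) = trig Ω a x) → 0 ≤ δ → δ ≤ m.re f1 → 0 < η → η ≤ 1 →
    M.re (Wt j1 Ω p) * (δ ^ d - d * (Ω.card * η)) - (1 - η ^ 2 / 4) ^ p ≤
      M.re (fun x => Wt j1 Ω p x * ∏ j, f1 (x j))

/-- (M7d) error terms (telescoping) -/
def S_tel : Prop := ∀ (G : Type u) [AddCommGroup G] (m : St G), m.Inv →
  ∀ (d N : ℕ) (φ : Fin d → G →+ G) (M : St (Fin d → G)), IsSol m φ M → C42 m N M →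
  ∀ (j1 : Fin d) (Ω : Finset (AddChar G Circle)) (p : ℕ) (f f1 : G → ℝ) (P : G → ℂ) (ε ρ : ℝ),
    (∀ x, 0 ≤ f x ∧ f x ≤ 1) → (∀ x, 0 ≤ f1 x ∧ f1 x ≤ 1) → Bdd P → 0 ≤ ε → 0 ≤ ρ →
    (∀ ξ, ‖coef m (fun x => (f x : ℂ) - P x) ξ‖ ≤ ε) →
    m.n2 (fun x => P x - (f1 x : ℂ)) ≤ ρ ^ 2 →
    |M.re (fun x => Wt j1 Ω p x * ∏ j, f (x j)) - M.re (fun x => Wt j1 Ω p x * ∏ j, f1 (x j))|
      ≤ d * (N * ε + M.re (Wt j1 Ω p) * ρ)

/-- (M7e) one scale -/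
def S_one : Prop := ∀ (d N : ℕ), 0 < d → ∀ δ : ℝ, 0 < δ → δ ≤ 1 → ∃ κ : ℝ, 0 < κ ∧
  ∀ ε : ℝ, 0 < ε → ε ≤ 1 → ∃ ε' c : ℝ, 0 < ε' ∧ ε' < ε ∧ 0 < c ∧
  ∀ (G : Type u) [AddCommGroup G] (m : St G), m.Inv →
  ∀ (φ : Fin d → G →+ G) (M : St (Fin d → G)), IsSol m φ M → C42 m N M →
  ∀ f : G → ℝ, (∀ x, 0 ≤ f x ∧ f x ≤ 1) → δ ≤ m.re f →
    (∀ Λ : Finset (AddChar G Circle), (∀ ξ ∈ Λ, ε' ≤ ‖coef m (fun x => (f x : ℂ)) ξ‖ ∧
      ‖coef m (fun x => (f x : ℂ)) ξ‖ < ε) →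
      ∑ ξ ∈ Λ, ‖coef m (fun x => (f x : ℂ)) ξ‖ ^ 2 ≤ κ) →
    c ≤ M.re (fun x => ∏ j, f (x j))

/-- (M7) the uniform lower bound -/
def S_low : Prop := ∀ (d N : ℕ), 0 < d → ∀ δ : ℝ, 0 < δ → δ ≤ 1 → ∃ c : ℝ, 0 < c ∧
  ∀ (G : Type u) [AddCommGroup G] (m : St G), m.Inv →
  ∀ (φ : Fin d → G →+ G) (M : St (Fin d → G)), IsSol m φ M → C42 m N M →
  ∀ f : G → ℝ, (∀ x, 0 ≤ f x ∧ f x ≤ 1) → δ ≤ m.re f → c ≤ M.re (fun x => ∏ j, f (x j))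

/-- (M8a) translated solution densities: `R(g)` is close to `R(0)` -/
def S_tr : Prop := ∀ (d N : ℕ) (ε : ℝ), 0 < ε → ∃ k : ℕ,
  ∀ (G : Type u) [AddCommGroup G] (m : St G), m.Inv →
  ∀ (φ : Fin d → G →+ G) (M : St (Fin d → G)), IsSol m φ M → C42 m N M →
  ∀ f : G → ℝ, (∀ x, 0 ≤ f x ∧ f x ≤ 1) → ∃ X : Finset (AddChar G Circle), X.card ≤ k ∧
    ∀ (t : Fin d → G) (η : ℝ), 0 ≤ η → (∀ χ ∈ X, ‖(χ (∑ j, φ j (t j)) : ℂ) - 1‖ ≤ η) →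
    M.re (fun x => ∏ j, f (x j)) - 2 * d * N * ε - k * η ≤ M.re (fun x => ∏ j, f (x j + t j))

/-- The final theorem. -/
def S_final : Prop := ∀ (d N : ℕ), 3 ≤ d → ∀ δ : ℝ, 0 < δ → ∃ (k : ℕ) (η : ℝ), 0 < η ∧
  ∀ (G : Type u) [AddCommGroup G] (φ : Fin d → G →+ G), IdxLe φ N → (∀ a, ∑ j, φ j a = 0) →
  ∀ A : Set G, δ ≤ upperBanach A → ∃ χ : Fin k → AddChar G Circle,
    ∀ g : G, (∀ i, ‖(χ i g : ℂ) - 1‖ < η) →
      ∃ a : Fin d → G, (∀ j, a j ∈ A) ∧ g = ∑ j, φ j (a j)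

end Pool.Agent.R161.Bohr
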