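import Pool.Agent.R161.Bohr.Basic
import Pool.Agent.Helper183.Gar.Mean

/-!
Abelian groups have invariant means (from `Gardner.exists_mean`).
-/

set_option autoImplicit false

namespace Pool.Agent.R161.Bohr

open Finset
open scoped ComplexConjugate

universe u

theorem bddR_re {X : Type u} {f : X → ℂ} (hf : Bdd f) : BddR fun x => (f x).re := by
  obtain ⟨C, hC⟩ := hf
  exact ⟨C, fun x => (Complex.abs_re_le_norm _).trans (hC x)⟩

theorem bddR_im {X : Type u} {f : X → ℂ} (hf : Bdd f) : BddR fun x => (f x).im := by
  obtain ⟨C, hC⟩ := hf
  exact ⟨C, fun x => (Complex.abs_im_le_norm _).trans (hC x)⟩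

theorem s_mean : S_mean.{u} := by
  intro H _
  obtain ⟨M, hadd, hnn, hone, hbd, hinv⟩ := Gardner.exists_mean H
  have hadd' : ∀ f g : H → ℝ, BddR f → BddR g → M (fun x => f x + g x) = M f + M g :=
    fun f g hf hg => hadd f g hf hg
  have hsmul : ∀ (c : ℝ) (f : H → ℝ), BddR f → M (fun x => c * f x) = c * M f := by
    intro c f hf
    obtain ⟨C, hC⟩ := id hf
    let h : ℝ →+ ℝ :=
      { toFun := fun c => M (fun x => c * f x)
        map_zero' := by
          have := hbd (fun x => (0 : ℝ) * f x) 0 (fun x => by simp)
          exact abs_nonpos_iff.1 this
        map_add' := fun a b => by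
          rw [← hadd' _ _ (hf.cmul a) (hf.cmul b)]
          congr 1
          funext x
          ring }
    have hcont : Continuous h := by
      apply AddMonoidHomClass.continuous_of_bound h C
      intro x
      have := hbd (fun y => x * f y) (C * |x|) (fun y => by
        rw [abs_mul, mul_comm]
        exact mul_le_mul_of_nonneg_right (hC y) (abs_nonneg _))
      rw [Real.norm_eq_abs, Real.norm_eq_abs]
      exact this
    have := map_real_smul h hcont c 1
    simpa [h] using this
  let m : St H :=
    { toFun := fun f => (M (fun x => (f x).re) : ℂ) + (M (fun x => (f x).im) : ℂ) * Complex.I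
      add' := by
        intro f g hf hg
        have h1 : M (fun x => (f x + g x).re) = M (fun x => (f x).re) + M (fun x => (g x).re) :=
          hadd' _ _ (bddR_re hf) (bddR_re hg)
        have h2 : M (fun x => (f x + g x).im) = M (fun x => (f x).im) + M (fun x => (g x).im) :=
          hadd' _ _ (bddR_im hf) (bddR_im hg)
        simp only [h1, h2]
        push_cast
        ring
      smul' := by
        intro c f hf
        have h1 : M (fun x => (c * f x).re) =
            c.re * M (fun x => (f x).re) - c.im * M (fun x => (f x).im) := by
          have e : (fun x => (c * f x).re) = fun x => c.re * (f x).re + (-c.im) * (f x).im := by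
            funext x
            rw [Complex.mul_re]
            ring
          rw [e, hadd' _ _ ((bddR_re hf).cmul _) ((bddR_im hf).cmul _), hsmul _ _ (bddR_re hf),
            hsmul _ _ (bddR_im hf)]
          ring
        have h2 : M (fun x => (c * f x).im) =
            c.re * M (fun x => (f x).im) + c.im * M (fun x => (f x).re) := by
          have e : (fun x => (c * f x).im) = fun x => c.re * (f x).im + c.im * (f x).re := by
            funext x
            rw [Complex.mul_im]
          rw [e, hadd' _ _ ((bddR_im hf).cmul _) ((bddR_re hf).cmul _), hsmul _ _ (bddR_re hf),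
            hsmul _ _ (bddR_im hf)]
        simp only [h1, h2]
        apply Complex.ext
        · simp
        · simp
      real' := by
        intro f hf
        have h0 : M (fun x => ((f x : ℂ)).im) = 0 := by
          have := hbd (fun x => ((f x : ℂ)).im) 0 (fun x => by simp)
          exact abs_nonpos_iff.1 this
        simp only [h0]
        simp
      nonneg' := by
        intro f hf h
        have := hnn f hf h
        simpa using this
      one' := by
        have h0 : M (fun x : H => ((1 : ℂ)).im) = 0 := by
          have := hbd (fun x : H => ((1 : ℂ)).im) 0 (fun x => by simp)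
          exact abs_nonpos_iff.1 this
        have h1 : M (fun x : H => ((1 : ℂ)).re) = 1 := by simpa using hone
        simp only [h0, h1]
        simp }
  refine ⟨m, ?_⟩
  intro f s hf
  have h1 : M (fun x => (f (x + s)).re) = M (fun x => (f x).re) := by
    have := hinv (fun x => (f x).re) s (bddR_re hf)
    simpa [add_comm] using this
  have h2 : M (fun x => (f (x + s)).im) = M (fun x => (f x).im) := by
    have := hinv (fun x => (f x).im) s (bddR_im hf)
    simpa [add_comm] using this
  change (M (fun x => (f (x + s)).re) : ℂ) + (M (fun x => (f (x + s)).im) : ℂ) * Complex.I =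
    (M (fun x => (f x).re) : ℂ) + (M (fun x => (f x).im) : ℂ) * Complex.I
  rw [h1, h2]

end Pool.Agent.R161.Bohr
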